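import Mathlib

set_option autoImplicit false
set_option linter.unusedSectionVars false

/-!
# A greatest common divisor system
-/

open scoped Classical BigOperators

noncomputable section

namespace Pool.Agent.Q100.EQ

lemma sum_sq_icc (e : ℕ) : ∀ m : ℕ, 1 ≤ m → ∑ k ∈ Finset.Icc 2 m, ((e : ℝ) / k) ^ 2 ≤ (e : ℝ) ^ 2 * (1 - 1 / m) := by
  intro m hm
  induction m, hm using Nat.le_induction with
  | base => simp
  | succ m hm ih =>
    rw [Finset.sum_Icc_succ_top (by omega)]
    have h1 : (0 : ℝ) < m := by exact_mod_cast hm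
    have h2 : ((e : ℝ) / (m + 1 : ℕ)) ^ 2 ≤ (e : ℝ) ^ 2 * (1 / m - 1 / (m + 1 : ℕ)) := by
      have h3 : (1 : ℝ) / m - 1 / (m + 1 : ℕ) = 1 / (m * (m + 1)) := by
        push_cast
        field_simp
        ring
      rw [h3, div_pow]
      push_cast
      rw [div_eq_mul_inv]
      refine mul_le_mul_of_nonneg_left ?_ (by positivity)
      rw [← one_div]
      refine one_div_le_one_div_of_le (by positivity) ?_
      nlinarith
    calc _ ≤ (e : ℝ) ^ 2 * (1 - 1 / m) + (e : ℝ) ^ 2 * (1 / m - 1 / (m + 1 : ℕ)) := add_le_add ih h2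
      _ = _ := by ring

lemma sum_proper {e : ℕ} (he : 1 ≤ e) : ∑ c ∈ e.properDivisors, c ^ 2 < e ^ 2 := by
  have h0 : e ≠ 0 := by omega
  have h1 : ∑ d ∈ e.divisors, (e / d) ^ 2 = ∑ d ∈ e.divisors, d ^ 2 := Nat.sum_div_divisors e (fun d => d ^ 2)
  have h2 : ∑ d ∈ e.divisors, d ^ 2 = ∑ c ∈ e.properDivisors, c ^ 2 + e ^ 2 := by
    rw [← Nat.insert_self_properDivisors h0, Finset.sum_insert Nat.self_notMem_properDivisors, add_comm]
  have h3 : ∑ d ∈ e.divisors, (e / d) ^ 2 = ∑ d ∈ e.divisors.erase 1, (e / d) ^ 2 + e ^ 2 := by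
    rw [← Finset.sum_erase_add _ _ (Nat.one_mem_divisors.mpr h0), Nat.div_one]
  have h4 : ((∑ d ∈ e.divisors.erase 1, (e / d) ^ 2 : ℕ) : ℝ) < (e : ℝ) ^ 2 := by
    push_cast
    calc ∑ d ∈ e.divisors.erase 1, (((e / d : ℕ) : ℝ)) ^ 2
        ≤ ∑ d ∈ Finset.Icc 2 e, ((e : ℝ) / d) ^ 2 := by
          refine (Finset.sum_le_sum fun d _ => ?_).trans
            (Finset.sum_le_sum_of_subset_of_nonneg (f := fun d : ℕ => ((e : ℝ) / d) ^ 2) ?_
              fun d _ _ => by positivity)
          · exact pow_le_pow_left₀ (by positivity) Nat.cast_div_le 2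
          · intro d hd
            rw [Finset.mem_erase, Nat.mem_divisors] at hd
            rw [Finset.mem_Icc]
            have := Nat.le_of_dvd (by omega) hd.2.1
            have := Nat.pos_of_dvd_of_pos hd.2.1 (by omega)
            omega
      _ ≤ (e : ℝ) ^ 2 * (1 - 1 / e) := sum_sq_icc e e he
      _ < (e : ℝ) ^ 2 := by
          have : (0 : ℝ) < e := by exact_mod_cast he
          have h5 : (0 : ℝ) < 1 / e := by positivity
          nlinarith [pow_pos this 2]
  have h5 : ∑ d ∈ e.divisors.erase 1, (e / d) ^ 2 < e ^ 2 := by exact_mod_cast h4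
  omega

variable {A : Type} [Group A] [Finite A] (u : ℕ → A)

/-- the operator `J(e) f (a) = ∑_{c k = e} μ(k) c² f(a u(c))` -/
def J (e : ℕ) (f : A → ℤ) (a : A) : ℤ :=
  ∑ x ∈ e.divisorsAntidiagonal, ArithmeticFunction.moebius x.1 * ((x.2 : ℤ) ^ 2 * f (a * u x.2))

lemma sum_J {g : ℕ} (hg : 0 < g) (f : A → ℤ) (a : A) :
    ∑ e ∈ g.divisors, J u e f a = (g : ℤ) ^ 2 * f (a * u g) := by
  have h := (ArithmeticFunction.sum_eq_iff_sum_mul_moebius_eq
    (f := fun e => J u e f a) (g := fun c : ℕ => (c : ℤ) ^ 2 * f (a * u c))).mpr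
    (fun n _ => by
      unfold J
      simp)
  exact h g hg

/-- `J(e)` is injective -/
lemma J_inj {e : ℕ} (he : 1 ≤ e) {f : A → ℤ} (h : ∀ a, J u e f a = 0) : f = 0 := by
  by_contra hf
  have : Fintype A := Fintype.ofFinite A
  obtain ⟨a₀, -, ha₀⟩ := Finset.exists_max_image (Finset.univ : Finset A) (fun a => |f a|)
    ⟨1, Finset.mem_univ _⟩
  have hpos : 0 < |f a₀| := by
    by_contra h0
    apply hf
    funext a
    have h1 := ha₀ a (Finset.mem_univ _)
    have h2 := abs_nonneg (f a)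
    have h3 : |f a| = 0 := by omega
    exact abs_eq_zero.mp h3
  have h1 := h (a₀ * (u e)⁻¹)
  unfold J at h1
  have h0 : e ≠ 0 := by omega
  rw [← Finset.add_sum_erase _ _ (show (1, e) ∈ e.divisorsAntidiagonal by
    rw [Nat.mem_divisorsAntidiagonal]; exact ⟨one_mul e, h0⟩)] at h1
  simp only [ArithmeticFunction.moebius_apply_one, one_mul, inv_mul_cancel_right] at h1
  have h2 : |∑ x ∈ e.divisorsAntidiagonal.erase (1, e),
      ArithmeticFunction.moebius x.1 * ((x.2 : ℤ) ^ 2 * f (a₀ * (u e)⁻¹ * u x.2))| ≤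
      ∑ x ∈ e.divisorsAntidiagonal.erase (1, e), (x.2 : ℤ) ^ 2 * |f a₀| := by
    refine (Finset.abs_sum_le_sum_abs _ _).trans (Finset.sum_le_sum fun x _ => ?_)
    rw [abs_mul, abs_mul, abs_of_nonneg (by positivity : (0 : ℤ) ≤ (x.2 : ℤ) ^ 2)]
    have h3 : |ArithmeticFunction.moebius x.1| ≤ 1 := ArithmeticFunction.abs_moebius_le_one
    have h4 := ha₀ (a₀ * (u e)⁻¹ * u x.2) (Finset.mem_univ _)
    calc _ ≤ 1 * ((x.2 : ℤ) ^ 2 * |f a₀|) :=
          mul_le_mul h3 (mul_le_mul_of_nonneg_left h4 (by positivity)) (by positivity) (by norm_num)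
      _ = _ := one_mul _
  have h3 : ∑ x ∈ e.divisorsAntidiagonal.erase (1, e), (x.2 : ℤ) ^ 2 * |f a₀| =
      (∑ c ∈ e.properDivisors, (c : ℤ) ^ 2) * |f a₀| := by
    rw [Finset.sum_mul]
    refine Finset.sum_bij (fun x _ => x.2) ?_ ?_ ?_ ?_
    · intro x hx
      rw [Finset.mem_erase, Nat.mem_divisorsAntidiagonal] at hx
      rw [Nat.mem_properDivisors]
      have h4 : x.2 ∣ e := Dvd.intro_left _ hx.2.1
      refine ⟨h4, lt_of_le_of_ne (Nat.le_of_dvd (by omega) h4) fun h5 => hx.1 ?_⟩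
      have h6 := hx.2.1
      rw [h5] at h6
      have h7 : x.1 = 1 := Nat.eq_of_mul_eq_mul_right (by omega : 0 < e) (by rw [h6, one_mul])
      exact Prod.ext h7 h5
    · intro x hx y hy hxy
      rw [Finset.mem_erase, Nat.mem_divisorsAntidiagonal] at hx hy
      have hxy' : x.2 = y.2 := hxy
      have h4 : 0 < y.2 := Nat.pos_of_ne_zero fun h5 => h0 (by rw [← hy.2.1, h5, mul_zero])
      refine Prod.ext (Nat.eq_of_mul_eq_mul_right h4 ?_) hxy'
      rw [hy.2.1, ← hxy', hx.2.1]
    · intro c hc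
      rw [Nat.mem_properDivisors] at hc
      obtain ⟨k, hk⟩ := hc.1
      refine ⟨(k, c), ?_, rfl⟩
      rw [Finset.mem_erase, Nat.mem_divisorsAntidiagonal]
      refine ⟨fun h5 => hc.2.ne (congrArg Prod.snd h5), ?_, h0⟩
      change k * c = e
      rw [hk, mul_comm]
    · intro x _
      rfl
  have h4 : (∑ c ∈ e.properDivisors, (c : ℤ) ^ 2) < (e : ℤ) ^ 2 := by exact_mod_cast sum_proper he
  have h5 : (e : ℤ) ^ 2 * |f a₀| ≤ (∑ c ∈ e.properDivisors, (c : ℤ) ^ 2) * |f a₀| := by
    rw [← h3]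
    refine le_trans (le_of_eq ?_) h2
    have h6 : (e : ℤ) ^ 2 * f a₀ = -∑ x ∈ e.divisorsAntidiagonal.erase (1, e),
      ArithmeticFunction.moebius x.1 * ((x.2 : ℤ) ^ 2 * f (a₀ * (u e)⁻¹ * u x.2)) := by
      linarith
    rw [← abs_neg (∑ x ∈ e.divisorsAntidiagonal.erase (1, e),
      ArithmeticFunction.moebius x.1 * ((x.2 : ℤ) ^ 2 * f (a₀ * (u e)⁻¹ * u x.2))), ← h6, abs_mul,
      abs_of_nonneg (by positivity : (0 : ℤ) ≤ (e : ℤ) ^ 2)]
  nlinarith

/-- **The system has only the trivial solution.** -/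
theorem core {n : ℕ} (hn : 0 < n) (D : ℕ → A → ℤ)
    (h : ∀ d ∈ n.divisors, ∀ a : A, ∑ s ∈ n.divisors, ((Nat.gcd d s : ℕ) : ℤ) ^ 2 *
      D s (a * u (Nat.gcd d s)) = 0) : ∀ s ∈ n.divisors, D s = 0 := by
  set T : ℕ → A → ℤ := fun e a => ∑ s ∈ n.divisors.filter (fun s => e ∣ s), D s a with hT
  have hadd : ∀ (e : ℕ) (S : Finset ℕ) (a : A),
      J u e (fun a => ∑ s ∈ S, D s a) a = ∑ s ∈ S, J u e (D s) a := by
    intro e S a
    unfold J
    rw [Finset.sum_comm]
    refine Finset.sum_congr rfl fun x _ => ?_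
    rw [Finset.mul_sum, Finset.mul_sum]
  have h1 : ∀ d ∈ n.divisors, ∀ a : A, ∑ e ∈ d.divisors, J u e (T e) a = 0 := by
    intro d hd a
    rw [← h d hd a]
    have h2 : ∀ s ∈ n.divisors, ((Nat.gcd d s : ℕ) : ℤ) ^ 2 * D s (a * u (Nat.gcd d s)) =
        ∑ e ∈ d.divisors, if e ∣ s then J u e (D s) a else 0 := by
      intro s hs
      rw [← sum_J u (Nat.gcd_pos_of_pos_left s (Nat.pos_of_mem_divisors hd)), ← Finset.sum_filter]
      refine Finset.sum_congr ?_ fun _ _ => rfl
      ext e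
      rw [Finset.mem_filter, Nat.mem_divisors, Nat.mem_divisors, Nat.dvd_gcd_iff]
      have hd0 := (Nat.pos_of_mem_divisors hd).ne'
      have hg0 := (Nat.gcd_pos_of_pos_left s (Nat.pos_of_mem_divisors hd)).ne'
      tauto
    rw [Finset.sum_congr rfl h2, Finset.sum_comm]
    refine Finset.sum_congr rfl fun e _ => ?_
    rw [← Finset.sum_filter]
    exact hadd e _ a
  have h2 : ∀ m : ℕ, ∀ d ∈ n.divisors, d ≤ m → T d = 0 := by
    intro m
    induction m with
    | zero =>
      intro d hd hd0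
      have := Nat.pos_of_mem_divisors hd
      omega
    | succ m ih =>
      intro d hd hdm
      have hd0 := Nat.pos_of_mem_divisors hd
      refine J_inj u (e := d) hd0 fun a => ?_
      have h3 := h1 d hd a
      rw [← Finset.sum_erase_add _ _ (Nat.mem_divisors_self d hd0.ne'), Finset.sum_eq_zero,
        zero_add] at h3
      · exact h3
      · intro e he
        rw [Finset.mem_erase, Nat.mem_divisors] at he
        have h4 : e ≤ m := by
          have := Nat.le_of_dvd hd0 he.2.1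
          omega
        have h5 : e ∈ n.divisors := Nat.mem_divisors.mpr
          ⟨he.2.1.trans (Nat.dvd_of_mem_divisors hd), hn.ne'⟩
        rw [ih e h5 h4]
        unfold J
        simp
  have h3 : ∀ m : ℕ, ∀ s ∈ n.divisors, n ≤ s + m → D s = 0 := by
    intro m
    induction m with
    | zero =>
      intro s hs hns
      have h4 : s = n := le_antisymm (Nat.divisor_le hs) (by omega)
      subst h4
      have h5 := h2 s s hs le_rfl
      funext a
      have h6 := congrFun h5 a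
      simp only [hT] at h6
      rw [Finset.sum_eq_single s] at h6
      · exact h6
      · intro t ht hts
        rw [Finset.mem_filter] at ht
        exact absurd (Nat.dvd_antisymm (Nat.dvd_of_mem_divisors ht.1) ht.2) hts
      · intro h7
        exact absurd (Finset.mem_filter.mpr ⟨hs, dvd_rfl⟩) h7
    | succ m ih =>
      intro s hs hns
      have h5 := h2 s s hs le_rfl
      funext a
      have h6 := congrFun h5 a
      simp only [hT] at h6
      rw [Finset.sum_eq_single s] at h6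
      · exact h6
      · intro t ht hts
        rw [Finset.mem_filter] at ht
        have h7 : s < t := lt_of_le_of_ne (Nat.le_of_dvd (Nat.pos_of_mem_divisors ht.1) ht.2)
          (Ne.symm hts)
        rw [ih t ht.1 (by omega)]
        rfl
      · intro h7
        exact absurd (Finset.mem_filter.mpr ⟨hs, dvd_rfl⟩) h7
  intro s hs
  exact h3 n s hs (by omega)

end Pool.Agent.Q100.EQ
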