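import Mathlib

set_option autoImplicit false

/-!
# Equivariant bijections from the numbers of points with given stabilisers
-/

open scoped Classical

noncomputable section

namespace Pool.Agent.Q100.EQ

/-- a bijection from the sizes of the fibres -/
theorem equiv_of_fibers {X Y K : Type} [Finite X] [Finite Y] (f : X → K) (g : Y → K)
    (h : ∀ k, Nat.card {x // f x = k} = Nat.card {y // g y = k}) :
    ∃ e : X ≃ Y, ∀ x, g (e x) = f x := by
  have h1 : ∀ k, Nonempty ({x // f x = k} ≃ {y // g y = k}) := fun k => Finite.card_eq.mp (h k)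
  let e := fun k => Classical.choice (h1 k)
  refine ⟨(Equiv.sigmaFiberEquiv f).symm.trans
    ((Equiv.sigmaCongrRight e).trans (Equiv.sigmaFiberEquiv g)), fun x => ?_⟩
  exact (e (f x) ⟨x, rfl⟩).2

variable {A X Y K : Type} [Group A] [Finite A] [MulAction A X] [MulAction A Y] [Finite X] [Finite Y]

omit [Finite A] [Finite X] in
lemma orbit_of_mk {x : X} {ω : MulAction.orbitRel.Quotient A X}
    (h : (Quotient.mk'' x : MulAction.orbitRel.Quotient A X) = ω) : ∃ a : A, a • ω.out = x := by
  have h1 : (Quotient.mk'' x : MulAction.orbitRel.Quotient A X) = Quotient.mk'' ω.out := by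
    rw [h]
    exact (Quotient.out_eq' ω).symm
  have h2 := Quotient.exact' h1
  rw [MulAction.orbitRel_apply] at h2
  exact h2

omit [Finite A] [Finite X] in
lemma mk_of_orbit {x : X} {ω : MulAction.orbitRel.Quotient A X} {a : A} (h : a • ω.out = x) :
    (Quotient.mk'' x : MulAction.orbitRel.Quotient A X) = ω := by
  have h1 : (Quotient.mk'' x : MulAction.orbitRel.Quotient A X) = Quotient.mk'' ω.out := by
    apply Quotient.sound'
    rw [MulAction.orbitRel_apply]
    exact ⟨a, h⟩
  rw [h1]
  exact Quotient.out_eq' ω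

omit [Finite A] in
lemma card_orbits (c : X → K) (hc : ∀ (a : A) (x : X), c (a • x) = c x) (k : K) (s : ℕ)
    (hs : ∀ x : X, c x = k → (MulAction.stabilizer A x).index = s) :
    Nat.card {x : X // c x = k} =
      Nat.card {ω : MulAction.orbitRel.Quotient A X // c ω.out = k} * s := by
  have := Fintype.ofFinite X
  have := Fintype.ofFinite (MulAction.orbitRel.Quotient A X)
  rw [Nat.card_eq_fintype_card, Nat.card_eq_fintype_card, Fintype.card_subtype, Fintype.card_subtype]
  rw [Finset.card_eq_sum_card_fiberwise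
    (f := fun x : X => (Quotient.mk'' x : MulAction.orbitRel.Quotient A X))
    (t := Finset.univ.filter fun ω : MulAction.orbitRel.Quotient A X => c ω.out = k)]
  · rw [Finset.sum_congr rfl (g := fun _ => s), Finset.sum_const, smul_eq_mul]
    intro ω hω
    rw [Finset.mem_filter] at hω
    rw [← hs _ hω.2, MulAction.index_stabilizer, ← Set.ncard_coe_finset]
    congr 1
    ext x
    rw [Finset.mem_coe, Finset.mem_filter, Finset.mem_filter]
    constructor
    · rintro ⟨-, h2⟩
      obtain ⟨a, ha⟩ := orbit_of_mk h2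
      exact ⟨a, ha⟩
    · rintro ⟨a, ha⟩
      have ha' : a • ω.out = x := ha
      refine ⟨⟨Finset.mem_univ _, ?_⟩, mk_of_orbit ha'⟩
      rw [← ha', hc]
      exact hω.2
  · intro x hx
    rw [Finset.mem_coe, Finset.mem_filter] at hx ⊢
    refine ⟨Finset.mem_univ _, ?_⟩
    obtain ⟨a, ha⟩ := orbit_of_mk (rfl : (Quotient.mk'' x : MulAction.orbitRel.Quotient A X) = _)
    rw [← hc a, ha]
    exact hx.2

/-- **An equivariant bijection** exists if the classes determine the stabilisers and have the same
sizes. -/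
theorem exists_equivariant (cX : X → K) (cY : Y → K) (hX : ∀ (a : A) (x : X), cX (a • x) = cX x)
    (hY : ∀ (a : A) (y : Y), cY (a • y) = cY y)
    (hXY : ∀ x y, cX x = cY y → MulAction.stabilizer A x = MulAction.stabilizer A y)
    (h : ∀ k, Nat.card {x // cX x = k} = Nat.card {y // cY y = k}) :
    ∃ f : X ≃ Y, (∀ (a : A) (x : X), f (a • x) = a • f x) ∧ ∀ x, cY (f x) = cX x := by
  have hq : ∀ k, Nat.card {ω : MulAction.orbitRel.Quotient A X // cX ω.out = k} =
      Nat.card {ω : MulAction.orbitRel.Quotient A Y // cY ω.out = k} := by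
    intro k
    by_cases hk : ∃ x, cX x = k
    · obtain ⟨x₀, hx₀⟩ := hk
      have h2 : 0 < Nat.card {x // cX x = k} := by
        have : Nonempty {x // cX x = k} := ⟨⟨x₀, hx₀⟩⟩
        exact Nat.card_pos
      rw [h k] at h2
      obtain ⟨⟨y₀, hy₀⟩⟩ := (Nat.card_pos_iff.mp h2).1
      have h3 : ∀ x : X, cX x = k →
          (MulAction.stabilizer A x).index = (MulAction.stabilizer A x₀).index := by
        intro x hx
        rw [hXY x y₀ (hx.trans hy₀.symm), hXY x₀ y₀ (hx₀.trans hy₀.symm)]
      have h4 : ∀ y : Y, cY y = k →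
          (MulAction.stabilizer A y).index = (MulAction.stabilizer A x₀).index := by
        intro y hy
        rw [← hXY x₀ y (hx₀.trans hy.symm)]
      have h5 := card_orbits cX hX k _ h3
      have h6 := card_orbits cY hY k _ h4
      rw [h k, h6] at h5
      exact (Nat.eq_of_mul_eq_mul_right
        (Nat.pos_of_ne_zero Subgroup.index_ne_zero_of_finite) h5).symm
    · have h2 : IsEmpty {x // cX x = k} := ⟨fun x => hk ⟨x.1, x.2⟩⟩
      have h3 : Nat.card {y // cY y = k} = 0 := by
        rw [← h k]
        exact Nat.card_of_isEmpty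
      have h4 : IsEmpty {y // cY y = k} := by
        rcases Nat.card_eq_zero.mp h3 with h5 | h5
        · exact h5
        · exact absurd (inferInstance : Finite {y // cY y = k}) (not_finite_iff_infinite.mpr h5)
      have h6 : IsEmpty {ω : MulAction.orbitRel.Quotient A X // cX ω.out = k} :=
        ⟨fun ω => h2.elim ⟨ω.1.out, ω.2⟩⟩
      have h7 : IsEmpty {ω : MulAction.orbitRel.Quotient A Y // cY ω.out = k} :=
        ⟨fun ω => h4.elim ⟨ω.1.out, ω.2⟩⟩
      rw [Nat.card_of_isEmpty, Nat.card_of_isEmpty]
  obtain ⟨e, he⟩ := equiv_of_fibers _ _ hq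
  have hst : ∀ ω, MulAction.stabilizer A (ω : MulAction.orbitRel.Quotient A X).out =
      MulAction.stabilizer A (e ω).out := fun ω => hXY _ _ (he ω).symm
  have hg : ∀ x : X, ∃ a : A, a • (Quotient.mk'' x : MulAction.orbitRel.Quotient A X).out = x :=
    fun x => orbit_of_mk rfl
  choose g hg using hg
  have hwd : ∀ (ω : MulAction.orbitRel.Quotient A X) (a b : A),
      a • ω.out = b • ω.out ↔ a • (e ω).out = b • (e ω).out := by
    intro ω a b
    have h1 : a • ω.out = b • ω.out ↔ b⁻¹ * a ∈ MulAction.stabilizer A ω.out := by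
      rw [MulAction.mem_stabilizer_iff, mul_smul, inv_smul_eq_iff]
    have h2 : a • (e ω).out = b • (e ω).out ↔ b⁻¹ * a ∈ MulAction.stabilizer A (e ω).out := by
      rw [MulAction.mem_stabilizer_iff, mul_smul, inv_smul_eq_iff]
    rw [h1, h2, hst]
  let f : X → Y := fun x => g x • (e (Quotient.mk'' x)).out
  have hf : ∀ (x : X) (ω : MulAction.orbitRel.Quotient A X) (a : A), a • ω.out = x →
      f x = a • (e ω).out := by
    intro x ω a ha
    have h1 := mk_of_orbit ha
    subst h1
    change g x • _ = _
    rw [← hwd, hg, ha]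
  have hfq : ∀ x, (Quotient.mk'' (f x) : MulAction.orbitRel.Quotient A Y) = e (Quotient.mk'' x) :=
    fun x => mk_of_orbit (a := g x) rfl
  have hinj : Function.Injective f := by
    intro x x' hxx
    have h1 : (Quotient.mk'' x : MulAction.orbitRel.Quotient A X) = Quotient.mk'' x' := by
      apply e.injective
      rw [← hfq, ← hfq, hxx]
    have h2 : f x' = g x' • (e (Quotient.mk'' x')).out := rfl
    have h3 : f x = g x • (e (Quotient.mk'' x')).out := by
      rw [← h1]
    have h4 : g x • (Quotient.mk'' x' : MulAction.orbitRel.Quotient A X).out =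
        g x' • (Quotient.mk'' x' : MulAction.orbitRel.Quotient A X).out := by
      rw [hwd, ← h3, ← h2, hxx]
    rw [hg, ← h1, hg] at h4
    exact h4
  have hsurj : Function.Surjective f := by
    intro y
    obtain ⟨a, ha⟩ := orbit_of_mk (rfl : (Quotient.mk'' y : MulAction.orbitRel.Quotient A Y) = _)
    refine ⟨a • (e.symm (Quotient.mk'' y)).out, ?_⟩
    rw [hf _ (e.symm (Quotient.mk'' y)) a rfl, Equiv.apply_symm_apply, ha]
  refine ⟨Equiv.ofBijective f ⟨hinj, hsurj⟩, fun a x => ?_, fun x => ?_⟩
  · change f (a • x) = a • f x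
    rw [hf (a • x) (Quotient.mk'' x) (a * g x) (by rw [mul_smul, hg]), mul_smul]
  · change cY (f x) = cX x
    have h1 : cY (f x) = cY (e (Quotient.mk'' x)).out := hY _ _
    rw [h1, he, ← hX (g x), hg]

end Pool.Agent.Q100.EQ
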