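import Pool.Agent.Q100.EQ.Tra

set_option autoImplicit false
set_option linter.unusedSectionVars false

/-!
# Cyclic quotients of order prime to `p`: the equivalence
-/

open scoped Classical BigOperators
open Pool.Agent.Helper884.IC
open Pool.Agent.Y63.AWC (irr_comp one_ne deg_nat)
open Pool.Agent.Q100.IV (coset_iff)
open Pool.Agent.Q100.CQ Pool.Agent.Q100.PX

noncomputable section

namespace Pool.Agent.Q100.EQ

variable {p : ℕ} [hp : Fact p.Prime]

/-- the square of `m` as a unit -/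
def uu (p : ℕ) (m : ℕ) : (ZMod p)ˣ := if h : Nat.Coprime m p then (ZMod.unitOfCoprime m h) ^ 2 else 1

lemma uu_eq {m : ℕ} (h : ¬ p ∣ m) : ((uu p m : (ZMod p)ˣ) : ZMod p) = (m : ZMod p) ^ 2 := by
  have h1 : Nat.Coprime m p := ((Nat.Prime.coprime_iff_not_dvd hp.out).mpr h).symm
  unfold uu
  rw [dif_pos h1, Units.val_pow_eq_pow_val, ZMod.coe_unitOfCoprime]

/-- the condition on the degree -/
def RR (p : ℕ) (a : (ZMod p)ˣ) (n : ℕ) : Prop := ((n : ZMod p)) ^ 2 = (a : ZMod p)

lemma RR_div {d g n : ℕ} (hd : ¬ p ∣ d) (hg : g ∣ d) (a : (ZMod p)ˣ) :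
    RR p (a * uu p d) (d / g * n) ↔ RR p (a * uu p g) n := by
  have hpg : ¬ p ∣ g := fun h => hd (h.trans hg)
  unfold RR
  rw [Units.val_mul, Units.val_mul, uu_eq hd, uu_eq hpg]
  obtain ⟨k, rfl⟩ := hg
  have hg0 : g ≠ 0 := by
    rintro rfl
    exact hpg (dvd_zero p)
  have hpk : ¬ p ∣ k := fun h => hd (h.trans (dvd_mul_left _ _))
  have hk : (k : ZMod p) ≠ 0 := by rwa [Ne, ZMod.natCast_eq_zero_iff]
  rw [Nat.mul_div_cancel_left _ (Nat.pos_of_ne_zero hg0)]
  push_cast
  constructor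
  · intro h
    have h1 : (k : ZMod p) ^ 2 * (n : ZMod p) ^ 2 = (k : ZMod p) ^ 2 * ((a : ZMod p) * (g : ZMod p) ^ 2) := by
      linear_combination h
    exact mul_left_cancel₀ (pow_ne_zero 2 hk) h1
  · intro h
    linear_combination (k : ZMod p) ^ 2 * h

variable {E : Type} [Group E] [Finite E] (G : Subgroup E) [hG : G.Normal]

/-- the number of the characters with given stabiliser and degree class -/
def mm (p : ℕ) [Fintype G] (s : ℕ) (a : (ZMod p)ˣ) : ℕ :=
  ((Irr G).filter (fun θ => sg G θ = s ∧ ∃ n : ℕ, θ 1 = (n : ℂ) ∧ RR p a n)).card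

variable {G}

lemma sg_dvd [Fintype G] {θ : G → ℂ} (hθ : IsClass θ) : sg G θ ∣ G.index := by
  unfold sg
  have h1 := Subgroup.relIndex_mul_index (le_st hθ)
  exact ⟨_, h1.symm⟩

/-- **The number of the characters of `M`, grouped.** -/
theorem count_grp (hc : IsCyclic (E ⧸ G)) (hpG : ¬ p ∣ G.index) [Fintype G] {M : Subgroup E}
    [Fintype M] (hGM : G ≤ M) (a : (ZMod p)ˣ) :
    G.relIndex M * cnt (RR p (a * uu p (G.relIndex M))) M =
      ∑ s ∈ G.index.divisors, (Nat.gcd (G.relIndex M) s) ^ 2 *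
        mm G p s (a * uu p (Nat.gcd (G.relIndex M) s)) := by
  have hd : G.relIndex M ∣ G.index := ⟨_, (Subgroup.relIndex_mul_index hGM).symm⟩
  have hpd : ¬ p ∣ G.relIndex M := fun h => hpG (h.trans hd)
  have hi0 : G.index ≠ 0 := Subgroup.index_ne_zero_of_finite
  rw [count_amb hc hGM]
  rw [← Finset.sum_fiberwise_of_maps_to (g := fun θ : G → ℂ => sg G θ) (t := G.index.divisors)]
  · refine Finset.sum_congr rfl fun s _ => ?_
    rw [Finset.sum_congr rfl (g := fun _ => (Nat.gcd (G.relIndex M) s) ^ 2), Finset.sum_const,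
      smul_eq_mul, mul_comm]
    · congr 1
      unfold mm
      congr 1
      ext θ
      rw [Finset.mem_filter, Finset.mem_filter, Finset.mem_filter]
      constructor
      · rintro ⟨⟨h1, n, h2, h3⟩, h4⟩
        have h4' : sg G θ = s := h4
        rw [h4', RR_div hpd (Nat.gcd_dvd_left _ _)] at h3
        exact ⟨h1, h4', n, h2, h3⟩
      · rintro ⟨h1, h4, n, h2, h3⟩
        refine ⟨⟨h1, n, h2, ?_⟩, h4⟩
        rw [h4, RR_div hpd (Nat.gcd_dvd_left _ _)]
        exact h3
    · intro θ hθ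
      rw [(Finset.mem_filter.mp hθ).2]
  · intro θ hθ
    rw [Finset.mem_filter] at hθ
    rw [Nat.mem_divisors]
    exact ⟨sg_dvd (mem_Irr.mp hθ.1).isClass, hi0⟩

/-- existence of the intermediate groups -/
lemma exists_M (hc : IsCyclic (E ⧸ G)) {d : ℕ} (hd : d ∣ G.index) :
    ∃ M : Subgroup E, G ≤ M ∧ G.relIndex M = d := by
  obtain ⟨v, hv⟩ := hc.exists_ofOrder_eq_natCard
  have hi : Nat.card (E ⧸ G) = G.index := rfl
  have hi0 : G.index ≠ 0 := Subgroup.index_ne_zero_of_finite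
  obtain ⟨k, hk⟩ := hd
  have hk0 : k ≠ 0 := by
    rintro rfl
    rw [mul_zero] at hk
    exact hi0 hk
  have hw : orderOf (v ^ k) = d := by
    rw [orderOf_pow' _ hk0, hv, hi, hk, Nat.gcd_mul_left_left,
      Nat.mul_div_cancel _ (Nat.pos_of_ne_zero hk0)]
  have hGM : G ≤ (Subgroup.zpowers (v ^ k)).comap (QuotientGroup.mk' G) := by
    intro x hx
    rw [Subgroup.mem_comap]
    have : (QuotientGroup.mk' G) x = 1 := (QuotientGroup.eq_one_iff x).mpr hx
    rw [this]
    exact Subgroup.one_mem _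
  refine ⟨_, hGM, ?_⟩
  rw [rel_eq hGM, Subgroup.map_comap_eq_self_of_surjective (QuotientGroup.mk'_surjective G),
    Nat.card_zpowers, hw]

/-- the part of a subgroup in `L` -/
lemma rel_local {L M : Subgroup E} (hGM : G ≤ M) (hGL : L ⊔ G = ⊤) :
    (G.subgroupOf L).relIndex (M.subgroupOf L) = G.relIndex M := by
  have h1 : (G.subgroupOf L).relIndex (M.subgroupOf L) = G.relIndex ((M.subgroupOf L).map L.subtype) :=
    Subgroup.relIndex_comap G L.subtype (M.subgroupOf L)
  rw [h1, Subgroup.subgroupOf_map_subtype]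
  have h2 : (M ⊓ L) ⊔ G = M := by
    apply le_antisymm (sup_le inf_le_left hGM)
    intro m hm
    have h3 : m ∈ L ⊔ G := by rw [hGL]; exact Subgroup.mem_top m
    obtain ⟨l, hl, g, hg, hlg⟩ := Subgroup.mem_sup_of_normal_right.mp h3
    rw [← hlg]
    refine Subgroup.mul_mem _ (Subgroup.mem_sup_left ⟨?_, hl⟩) (Subgroup.mem_sup_right hg)
    have h4 : l = m * g⁻¹ := by rw [← hlg]; group
    rw [h4]
    exact M.mul_mem hm (M.inv_mem (hGM hg))
  conv_rhs => rw [← h2]
  rw [Subgroup.relIndex_sup_right]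

/-- **Main equivalence.** -/
theorem main_iff (hc : IsCyclic (E ⧸ G)) (hpG : ¬ p ∣ G.index) {L : Subgroup E} (hGL : L ⊔ G = ⊤)
    [Fintype G] [∀ M : Subgroup E, Fintype M] [Fintype (G.subgroupOf L)]
    [∀ M : Subgroup L, Fintype M] :
    (∀ M : Subgroup E, G ≤ M → ∀ a : (ZMod p)ˣ,
      cnt (RR p a) M = cnt (RR p a) (M.subgroupOf L)) ↔
    ∀ (s : ℕ) (a : (ZMod p)ˣ), mm G p s a = mm (G.subgroupOf L) p s a := by
  have hc' : IsCyclic (L ⧸ G.subgroupOf L) := cyc_sub hc L
  have hi : (G.subgroupOf L).index = G.index := by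
    have h1 := rel_local (M := ⊤) (le_top : G ≤ ⊤) hGL
    rw [Subgroup.relIndex_top_right] at h1
    have h2 : (⊤ : Subgroup E).subgroupOf L = ⊤ := Subgroup.top_subgroupOf L
    rw [h2, Subgroup.relIndex_top_right] at h1
    exact h1
  have hpG' : ¬ p ∣ (G.subgroupOf L).index := by rw [hi]; exact hpG
  have hi0 : 0 < G.index := Nat.pos_of_ne_zero Subgroup.index_ne_zero_of_finite
  have hle : ∀ M : Subgroup E, G ≤ M → G.subgroupOf L ≤ M.subgroupOf L := fun M hGM x hx => hGM hx
  constructor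
  · intro h s a
    by_cases hs : s ∈ G.index.divisors
    · have hcore := core (A := (ZMod p)ˣ) (uu p) hi0
        (fun s a => (mm G p s a : ℤ) - (mm (G.subgroupOf L) p s a : ℤ)) ?_ s hs
      · have := congrFun hcore a
        simp only [Pi.zero_apply] at this
        omega
      · intro d hd a
        obtain ⟨M, hGM, hMd⟩ := exists_M hc (Nat.dvd_of_mem_divisors hd)
        have h1 := count_grp (p := p) hc hpG hGM a
        have h2 := count_grp (p := p) hc' hpG' (hle M hGM) a
        rw [rel_local hGM hGL, hi] at h2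
        rw [hMd] at h1 h2
        rw [h M hGM, h2] at h1
        have h3 := congrArg (Nat.cast : ℕ → ℤ) h1
        push_cast at h3
        simp only [mul_sub]
        rw [Finset.sum_sub_distrib, h3, sub_self]
    · have h1 : mm G p s a = 0 := by
        unfold mm
        rw [Finset.card_eq_zero, Finset.filter_eq_empty_iff]
        rintro θ hθ ⟨h1, -⟩
        apply hs
        rw [← h1, Nat.mem_divisors]
        exact ⟨sg_dvd (mem_Irr.mp hθ).isClass, hi0.ne'⟩
      have h2 : mm (G.subgroupOf L) p s a = 0 := by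
        unfold mm
        rw [Finset.card_eq_zero, Finset.filter_eq_empty_iff]
        rintro θ hθ ⟨h1, -⟩
        apply hs
        rw [← h1, Nat.mem_divisors, ← hi]
        exact ⟨sg_dvd (mem_Irr.mp hθ).isClass, hi.symm ▸ hi0.ne'⟩
      rw [h1, h2]
  · intro h M hGM a
    have hd : G.relIndex M ∣ G.index := ⟨_, (Subgroup.relIndex_mul_index hGM).symm⟩
    have hd0 : 0 < G.relIndex M := Nat.pos_of_dvd_of_pos hd hi0
    have h1 := count_grp (p := p) hc hpG hGM (a * (uu p (G.relIndex M))⁻¹)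
    have h2 := count_grp (p := p) hc' hpG' (hle M hGM) (a * (uu p (G.relIndex M))⁻¹)
    rw [rel_local hGM hGL, hi] at h2
    rw [inv_mul_cancel_right] at h1 h2
    refine Nat.eq_of_mul_eq_mul_left hd0 ?_
    rw [h1, h2]
    refine Finset.sum_congr rfl fun s _ => ?_
    rw [h]

end Pool.Agent.Q100.EQ
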