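import Pool.Agent.Q100.PX.Zed
import Pool.Agent.Y63.AWC.Norm

set_option autoImplicit false
set_option linter.unusedSectionVars false

/-!
# Characters over a stable set of characters of a normal subgroup with cyclic quotient
-/

open scoped Classical BigOperators
open Pool.Agent.Helper884.IC
open Pool.Agent.Y63.AWC (irr_comp one_ne deg_nat mult_nat top_scalar deg_dvd)
open Pool.Agent.Q100.IV (coset_iff)
open Pool.Agent.Q100.CQ Pool.Agent.Q100.PX

noncomputable section

namespace Pool.Agent.Q100.EQ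

variable {X : Type} [Group X] [Finite X] (N : Subgroup X) [hN : N.Normal]

lemma cjN_mul (a b : X) (x : N) : cjN N (a * b) x = cjN N a (cjN N b x) := Subtype.ext (by
  change (a * b) * (x : X) * (a * b)⁻¹ = a * (b * (x : X) * b⁻¹) * a⁻¹
  group)

lemma cjN_one (x : N) : cjN N 1 x = x := Subtype.ext (by
  change 1 * (x : X) * 1⁻¹ = (x : X)
  group)

/-- the stabiliser -/
def st (θ : N → ℂ) : Subgroup X where
  carrier := {y | ∀ x, θ (cjN N y x) = θ x}
  mul_mem' := by
    intro a b ha hb x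
    rw [cjN_mul, ha, hb]
  one_mem' := by
    intro x
    rw [cjN_one]
  inv_mem' := by
    intro a ha x
    have h1 := ha (cjN N a⁻¹ x)
    rw [← cjN_mul, mul_inv_cancel, cjN_one] at h1
    exact h1.symm

variable {N}

lemma mem_st {θ : N → ℂ} {y : X} : y ∈ st N θ ↔ ∀ x, θ (cjN N y x) = θ x := Iff.rfl

lemma le_st {θ : N → ℂ} (hθ : IsClass θ) : N ≤ st N θ := by
  intro y hy x
  have e2 : cjN N y x = (⟨y, hy⟩ : N) * x * (⟨y, hy⟩ : N)⁻¹ := rfl
  rw [e2, hθ]

variable [Fintype X] [Fintype N]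

lemma mlt_nat {θ : N → ℂ} {χ : X → ℂ} (hθ : IsIrrChar θ) (hχ : IsIrrChar χ) :
    ∃ k : ℕ, mlt N.subtype θ χ = (k : ℂ) := by
  obtain ⟨k, hk⟩ := mult_nat N hχ hθ
  refine ⟨k, ?_⟩
  rw [← hk]
  unfold mlt
  rw [B_comm]
  have e : ∀ (i j : Fintype N) (f g : N → ℂ), @B N _ i f g = @B N _ j f g := fun i j f g => by
    rw [Subsingleton.elim i j]
  exact e _ _ _ _

variable (N)

/-- the irreducible characters over `Θ` -/
def ov (Θ : Finset (N → ℂ)) : Finset (X → ℂ) :=
  (Irr X).filter (fun χ => ∃ θ ∈ Θ, mlt N.subtype θ χ ≠ 0)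

variable {N}

lemma ov_sub {Θ : Finset (N → ℂ)} : ov N Θ ⊆ Irr X := Finset.filter_subset _ _

lemma SS_ov {Θ : Finset (N → ℂ)} (hΘ : Θ ⊆ Irr N) (hs : Stab (cjN N) Θ) {χ : X → ℂ}
    (hχ : IsIrrChar χ) : SS' N.subtype Θ χ = if χ ∈ ov N Θ then χ 1 else 0 := by
  by_cases h : χ ∈ ov N Θ
  · rw [if_pos h]
    rcases dich (cj_sub N) hΘ hs hχ with h0 | h1
    · exfalso
      unfold ov at h
      rw [Finset.mem_filter] at h
      obtain ⟨-, θ₀, h2, h3⟩ := h
      have h4 : ∀ θ ∈ Θ, ∃ c : ℕ, θ 1 * mlt N.subtype θ χ = (c : ℂ) := by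
        intro θ hθ
        obtain ⟨n, -, hn⟩ := deg_nat (mem_Irr.mp (hΘ hθ))
        obtain ⟨k, hk⟩ := mlt_nat (mem_Irr.mp (hΘ hθ)) hχ
        exact ⟨n * k, by rw [hn, hk]; push_cast; ring⟩
      choose! c hc using h4
      unfold SS' at h0
      rw [Finset.sum_congr rfl hc] at h0
      have h5 : ∑ θ ∈ Θ, c θ = 0 := by exact_mod_cast h0
      have h6 := (Finset.sum_eq_zero_iff.mp h5) θ₀ h2
      have h7 := hc θ₀ h2
      rw [h6, Nat.cast_zero] at h7
      rcases mul_eq_zero.mp h7 with h8 | h8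
      · exact one_ne (mem_Irr.mp (hΘ h2)) h8
      · exact h3 h8
    · exact h1
  · rw [if_neg h]
    unfold SS'
    refine Finset.sum_eq_zero fun θ hθ => ?_
    have : mlt N.subtype θ χ = 0 := by
      by_contra h1
      exact h (by unfold ov; exact Finset.mem_filter.mpr ⟨mem_Irr.mpr hχ, θ, hθ, h1⟩)
    rw [this, mul_zero]

/-- **The idempotents.** -/
theorem FT_ov {Θ : Finset (N → ℂ)} (hΘ : Θ ⊆ Irr N) (hs : Stab (cjN N) Θ) (z : X) :
    (Nat.card X : ℂ) * push N.subtype (FT Θ) z = (Nat.card N : ℂ) * FT (ov N Θ) z := by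
  have hM := cardG_ne (G := X)
  have hK := cardG_ne (G := N)
  have h := cj_sub N
  have key : (Nat.card X : ℂ) • push N.subtype (FT Θ) - (Nat.card N : ℂ) • FT (ov N Θ) = 0 := by
    refine class_eq_zero _ ?_ ?_
    · intro x y
      have h1 := push_class h hs x y
      have h2 := FT_class (ov_sub (Θ := Θ)) x y
      simp only [Pi.sub_apply, Pi.smul_apply]
      rw [h1, h2]
    · intro χ hχ
      rw [B_sub_left, B_smul_left, B_smul_left]
      have h1 : B (push N.subtype (FT Θ)) χ = (Nat.card X : ℂ)⁻¹ *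
          ((Nat.card N : ℂ) * SS' N.subtype Θ χ) := by
        unfold B
        rw [SS_eq]
      have h2 : B (FT (ov N Θ)) χ = if χ ∈ ov N Θ then χ 1 else 0 := by
        have e1 : FT (ov N Θ) = ∑ ψ ∈ ov N Θ, ψ 1 • ψ := by
          funext x
          unfold FT
          rw [Finset.sum_apply]
          rfl
        rw [e1, B_sum_left]
        have e2 : ∀ ψ ∈ ov N Θ, B (ψ 1 • ψ) χ = if ψ = χ then χ 1 else 0 := by
          intro ψ hψ
          rw [B_smul_left, B_irr (mem_Irr.mp (ov_sub hψ)) hχ]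
          by_cases h3 : ψ = χ
          · rw [if_pos h3, if_pos h3, h3, mul_one]
          · rw [if_neg h3, if_neg h3, mul_zero]
        rw [Finset.sum_congr rfl e2, Finset.sum_ite_eq' (ov N Θ) χ]
      rw [h1, h2, SS_ov hΘ hs hχ]
      field_simp
      ring
  have := congrFun key z
  simp only [Pi.sub_apply, Pi.smul_apply, smul_eq_mul, Pi.zero_apply] at this
  exact sub_eq_zero.mp this

lemma mem_map_st {θ : N → ℂ} (hθ : IsClass θ) {e : X} :
    (e : X ⧸ N) ∈ (st N θ).map (QuotientGroup.mk' N) ↔ e ∈ st N θ := by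
  rw [Subgroup.mem_map]
  constructor
  · rintro ⟨y, hy, hye⟩
    have h1 : e * y⁻¹ ∈ N := coset_iff.mpr hye.symm
    have h2 : e = e * y⁻¹ * y := by group
    rw [h2]
    exact (st N θ).mul_mem (le_st hθ h1) hy
  · intro h
    exact ⟨e, h, rfl⟩

lemma card_st {θ : N → ℂ} (hθ : IsClass θ) :
    Nat.card (st N θ) = Nat.card N * Nat.card ((st N θ).map (QuotientGroup.mk' N)) := by
  have h1 : ((st N θ).map (QuotientGroup.mk' N)).index = (st N θ).index :=
    Subgroup.index_map_eq _ (QuotientGroup.mk'_surjective N) (by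
      rw [QuotientGroup.ker_mk']; exact le_st hθ)
  have h2 := Subgroup.card_mul_index ((st N θ).map (QuotientGroup.mk' N))
  have h3 := Subgroup.card_mul_index (st N θ)
  have h4 := Subgroup.card_eq_card_quotient_mul_card_subgroup N
  rw [h1] at h2
  have h5 : 0 < (st N θ).index := Nat.pos_of_ne_zero (Subgroup.index_ne_zero_of_finite)
  refine Nat.eq_of_mul_eq_mul_right h5 ?_
  rw [h3, h4, ← h2]
  ring

/-- **The number of the characters over `Θ`.** -/
theorem count_ov (hcyc : IsCyclic (X ⧸ N)) {Θ : Finset (N → ℂ)} (hΘ : Θ ⊆ Irr N)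
    (hs : Stab (cjN N) Θ) :
    Nat.card N * Nat.card X * (ov N Θ).card = ∑ θ ∈ Θ, Nat.card (st N θ) ^ 2 := by
  have : Fintype (X ⧸ N) := Fintype.ofFinite _
  have hX := cardG_ne (G := X)
  have hNc := cardG_ne (G := N)
  have hcj := cj_sub N
  set F : X → X → ℂ := fun x y => push N.subtype (FT Θ) (x * y * x⁻¹ * y⁻¹) with hF
  have hcl := push_class hcj hs
  have h1 : ∀ x y, F x (y * x) = F x y := by
    intro x y
    simp only [hF]
    congr 1
    group
  have h2 : ∀ x y, F y x⁻¹ = F x y := by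
    intro x y
    simp only [hF]
    rw [← hcl (y * x⁻¹ * y⁻¹ * x⁻¹⁻¹) x]
    congr 1
    group
  have hsym := NF_sym (G := N) h1 h2
  have hNF : ∀ e : X, NF N F 1 (e : X ⧸ N) = (Nat.card N : ℂ) ^ 2 *
      ((Θ.filter (fun θ => ∀ x, θ (cjN N e x) = θ x)).card : ℂ) := by
    intro e
    rw [← sum_push_comm N hΘ e]
    unfold NF
    refine Finset.sum_congr ?_ fun _ _ => rfl
    ext q
    rw [Finset.mem_filter, Finset.mem_filter, QuotientGroup.eq_one_iff, coset_iff]
  have hgen : ∀ a b : X ⧸ N, NF N F a b = (Nat.card N : ℂ) ^ 2 *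
      ((Θ.filter (fun θ => a ∈ (st N θ).map (QuotientGroup.mk' N) ∧
        b ∈ (st N θ).map (QuotientGroup.mk' N))).card : ℂ) := by
    intro a b
    have h3 : IsCyclic (Subgroup.closure ({a, b} : Set (X ⧸ N))) := inferInstance
    obtain ⟨v, hv⟩ := h3.exists_generator
    have h5 : Subgroup.closure ({a, b} : Set (X ⧸ N)) = Subgroup.zpowers (v : X ⧸ N) := by
      apply le_antisymm
      · intro x hx
        obtain ⟨k, hk⟩ := Subgroup.mem_zpowers_iff.mp (hv ⟨x, hx⟩)
        rw [Subgroup.mem_zpowers_iff]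
        exact ⟨k, congrArg Subtype.val hk⟩
      · rw [Subgroup.zpowers_le]
        exact v.2
    obtain ⟨e, he⟩ := QuotientGroup.mk_surjective (v : X ⧸ N)
    rw [hsym.gen h5, ← he, hNF]
    congr 2
    refine congrArg Finset.card ?_
    ext θ
    rw [Finset.mem_filter, Finset.mem_filter]
    refine and_congr_right fun hθ => ?_
    have hcθ := (mem_Irr.mp (hΘ hθ)).isClass
    change e ∈ st N θ ↔ _
    rw [← mem_map_st hcθ, he, ← Subgroup.zpowers_le, ← h5, Subgroup.closure_le]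
    constructor
    · intro h
      exact ⟨h (by simp), h (by simp)⟩
    · rintro ⟨ha, hb⟩ x (rfl | hx)
      · exact ha
      · have hx' : x = b := hx
        rw [hx']
        exact hb
  have e1 : ∑ q : X × X, F q.1 q.2 = ∑ t : (X ⧸ N) × (X ⧸ N), NF N F t.1 t.2 := by
    rw [← Finset.sum_fiberwise_of_maps_to (g := fun q : X × X => ((q.1 : X ⧸ N), (q.2 : X ⧸ N)))
      (t := Finset.univ) (fun _ _ => Finset.mem_univ _)]
    refine Finset.sum_congr rfl fun t _ => ?_
    unfold NF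
    refine Finset.sum_congr ?_ fun _ _ => rfl
    ext q
    rw [Finset.mem_filter, Finset.mem_filter]
    refine and_congr_right fun _ => ?_
    constructor
    · intro h
      exact ⟨congrArg Prod.fst h, congrArg Prod.snd h⟩
    · rintro ⟨h, h'⟩
      exact Prod.ext h h'
  have e2 : ∑ t : (X ⧸ N) × (X ⧸ N), NF N F t.1 t.2 = ∑ θ ∈ Θ, (Nat.card (st N θ) : ℂ) ^ 2 := by
    rw [Finset.sum_congr rfl fun t _ => hgen t.1 t.2, ← Finset.mul_sum]
    have e3 : ∀ t : (X ⧸ N) × (X ⧸ N), ((Θ.filter (fun θ =>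
        t.1 ∈ (st N θ).map (QuotientGroup.mk' N) ∧
        t.2 ∈ (st N θ).map (QuotientGroup.mk' N))).card : ℂ) =
        ∑ θ ∈ Θ, if t.1 ∈ (st N θ).map (QuotientGroup.mk' N) ∧
          t.2 ∈ (st N θ).map (QuotientGroup.mk' N) then (1 : ℂ) else 0 := by
      intro t
      rw [Finset.sum_boole]
    rw [Finset.sum_congr rfl fun t _ => e3 t, Finset.sum_comm, Finset.mul_sum]
    refine Finset.sum_congr rfl fun θ hθ => ?_
    rw [Finset.sum_boole]
    have e4 : (Finset.univ.filter (fun t : (X ⧸ N) × (X ⧸ N) =>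
        t.1 ∈ (st N θ).map (QuotientGroup.mk' N) ∧
        t.2 ∈ (st N θ).map (QuotientGroup.mk' N))) =
        (Finset.univ.filter (fun a : X ⧸ N => a ∈ (st N θ).map (QuotientGroup.mk' N))) ×ˢ
        (Finset.univ.filter (fun a : X ⧸ N => a ∈ (st N θ).map (QuotientGroup.mk' N))) := by
      ext t
      rw [Finset.mem_product, Finset.mem_filter, Finset.mem_filter, Finset.mem_filter]
      simp
    have e5 : (Finset.univ.filter (fun a : X ⧸ N => a ∈ (st N θ).map (QuotientGroup.mk' N))).card =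
        Nat.card ((st N θ).map (QuotientGroup.mk' N)) := by
      rw [Nat.card_eq_fintype_card, Fintype.card_subtype]
    rw [e4, Finset.card_product, e5, card_st (mem_Irr.mp (hΘ hθ)).isClass]
    push_cast
    ring
  have h7 : (Nat.card X : ℂ) * ∑ q : X × X, F q.1 q.2 =
      (Nat.card N : ℂ) * ((Nat.card X : ℂ) ^ 2 * ((ov N Θ).card : ℂ)) := by
    rw [← sum_FT_comm ov_sub, Finset.mul_sum, Finset.mul_sum]
    refine Finset.sum_congr rfl fun q _ => ?_
    simp only [hF]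
    exact FT_ov hΘ hs _
  rw [e1, e2] at h7
  have h8 : (Nat.card X : ℂ) * ((Nat.card N : ℂ) * (Nat.card X : ℂ) * ((ov N Θ).card : ℂ)) =
      (Nat.card X : ℂ) * ∑ θ ∈ Θ, (Nat.card (st N θ) : ℂ) ^ 2 := by
    rw [h7]
    ring
  have h9 := mul_left_cancel₀ hX h8
  exact_mod_cast h9

lemma orb_mul_st (θ : N → ℂ) : (orb (cjN N) θ).card * Nat.card (st N θ) = Nat.card X := by
  let _ := act (cj_sub N)
  have h1 : ((orb (cjN N) θ : Finset (N → ℂ)) : Set (N → ℂ)) = MulAction.orbit X θ := by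
    ext θ'
    rw [Finset.mem_coe, mem_orb, MulAction.mem_orbit_iff]
    constructor
    · rintro ⟨y, rfl⟩
      refine ⟨y⁻¹, ?_⟩
      change (fun x => θ (cjN N y⁻¹⁻¹ x)) = _
      rw [inv_inv]
    · rintro ⟨y, rfl⟩
      exact ⟨y⁻¹, rfl⟩
  have h2 : MulAction.stabilizer X θ = st N θ := by
    ext y
    rw [MulAction.mem_stabilizer_iff]
    change (fun x => θ (cjN N y⁻¹ x)) = θ ↔ _
    rw [← (st N θ).inv_mem_iff]
    constructor
    · intro h x
      exact congrFun h x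
    · intro h
      funext x
      exact h x
  have h3 := MulAction.index_stabilizer X θ
  have h4 := Subgroup.card_mul_index (MulAction.stabilizer X θ)
  rw [h3, ← h1, Set.ncard_coe_finset, h2, mul_comm] at h4
  exact h4

lemma orb_eq {θ θ' : N → ℂ} (h : θ' ∈ orb (cjN N) θ) : orb (cjN N) θ' = orb (cjN N) θ := by
  obtain ⟨y, rfl⟩ := mem_orb.mp h
  ext η
  rw [mem_orb, mem_orb]
  constructor
  · rintro ⟨z, rfl⟩
    exact ⟨y * z, funext fun x => by rw [(cj_sub N).mul]⟩
  · rintro ⟨z, rfl⟩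
    refine ⟨y⁻¹ * z, funext fun x => ?_⟩
    rw [← (cj_sub N).mul, mul_inv_cancel_left]

/-- **The degrees of the characters over `θ`.** -/
theorem deg_ov (hcyc : IsCyclic (X ⧸ N)) {θ : N → ℂ} (hθ : IsIrrChar θ) {χ : X → ℂ}
    (hχ : IsIrrChar χ) (hm : mlt N.subtype θ χ ≠ 0) :
    χ 1 = ((orb (cjN N) θ).card : ℂ) * θ 1 := by
  have hcj := cj_sub N
  have hΘ : orb (cjN N) θ ⊆ Irr N := orb_irr hθ
  have hs : Stab (cjN N) (orb (cjN N) θ) := orb_stab hcj θ
  have ht := orb_mul_st θ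
  set t := (orb (cjN N) θ).card with htd
  have htpos : 0 < t := Finset.card_pos.mpr ⟨θ, self_mem_orb hcj θ⟩
  have hst : ∀ θ' ∈ orb (cjN N) θ, Nat.card (st N θ') = Nat.card (st N θ) := by
    intro θ' h'
    have h1 := orb_mul_st θ'
    rw [orb_eq h', ← htd, ← ht] at h1
    exact Nat.eq_of_mul_eq_mul_left htpos h1
  have hc := count_ov hcyc hΘ hs
  rw [Finset.sum_congr rfl fun θ' h' => by rw [hst θ' h'], Finset.sum_const, ← htd, smul_eq_mul] at hc
  -- the number of the characters over the orbit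
  have hnum : Nat.card N * (ov N (orb (cjN N) θ)).card = Nat.card (st N θ) := by
    have h1 : Nat.card X * (Nat.card N * (ov N (orb (cjN N) θ)).card) =
        Nat.card X * Nat.card (st N θ) := by
      calc _ = Nat.card N * Nat.card X * (ov N (orb (cjN N) θ)).card := by ring
        _ = t * Nat.card (st N θ) ^ 2 := hc
        _ = t * Nat.card (st N θ) * Nat.card (st N θ) := by ring
        _ = _ := by rw [ht]
    exact Nat.eq_of_mul_eq_mul_left Nat.card_pos h1
  -- the degrees in terms of the multiplicities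
  have hex : ∀ ψ ∈ ov N (orb (cjN N) θ), ∃ k : ℕ, 0 < k ∧ mlt N.subtype θ ψ = (k : ℂ) ∧
      ψ 1 = (t : ℂ) * (θ 1 * k) := by
    intro ψ hψ
    have hψ' := mem_Irr.mp (ov_sub hψ)
    obtain ⟨k, hk⟩ := mlt_nat hθ hψ'
    have h1 := SS_ov hΘ hs hψ'
    rw [if_pos hψ] at h1
    have h2 : SS' N.subtype (orb (cjN N) θ) ψ = (t : ℂ) * (θ 1 * mlt N.subtype θ ψ) := by
      unfold SS'
      rw [Finset.sum_congr rfl (g := fun _ => θ 1 * mlt N.subtype θ ψ), Finset.sum_const,
        nsmul_eq_mul]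
      intro θ'' h''
      obtain ⟨y, rfl⟩ := mem_orb.mp h''
      rw [mlt_conj hcj θ hψ'.isClass y]
      simp only [map_one]
    rw [h1, hk] at h2
    refine ⟨k, Nat.pos_of_ne_zero fun h0 => ?_, hk, h2⟩
    rw [h0, Nat.cast_zero, mul_zero, mul_zero] at h2
    exact one_ne hψ' h2
  choose! k hkpos hk hk1 using hex
  -- comparison at `1`
  have h1 := FT_ov hΘ hs 1
  have h2 : push N.subtype (FT (orb (cjN N) θ)) 1 = (t : ℂ) * θ 1 ^ 2 := by
    have e1 : (1 : X) = N.subtype 1 := rfl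
    rw [e1, push_apply Subtype.val_injective]
    unfold FT
    rw [Finset.sum_congr rfl (g := fun _ => θ 1 ^ 2), Finset.sum_const, nsmul_eq_mul]
    intro θ'' h''
    obtain ⟨y, rfl⟩ := mem_orb.mp h''
    simp only [map_one]
    ring
  have h3 : FT (ov N (orb (cjN N) θ)) 1 =
      (t : ℂ) ^ 2 * θ 1 ^ 2 * ((∑ ψ ∈ ov N (orb (cjN N) θ), k ψ ^ 2 : ℕ) : ℂ) := by
    unfold FT
    push_cast
    rw [Finset.mul_sum]
    refine Finset.sum_congr rfl fun ψ hψ => ?_
    rw [hk1 ψ hψ]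
    ring
  rw [h2, h3] at h1
  have hθ1 := one_ne hθ
  have ht0 : (t : ℂ) ≠ 0 := by exact_mod_cast htpos.ne'
  have h4 : (Nat.card X : ℂ) = (Nat.card N : ℂ) * ((t : ℂ) *
      ((∑ ψ ∈ ov N (orb (cjN N) θ), k ψ ^ 2 : ℕ) : ℂ)) := by
    have h5 : ((t : ℂ) * θ 1 ^ 2) * (Nat.card X : ℂ) = ((t : ℂ) * θ 1 ^ 2) *
        ((Nat.card N : ℂ) * ((t : ℂ) * ((∑ ψ ∈ ov N (orb (cjN N) θ), k ψ ^ 2 : ℕ) : ℂ))) := by
      linear_combination h1
    exact mul_left_cancel₀ (mul_ne_zero ht0 (pow_ne_zero 2 hθ1)) h5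
  have h5 : Nat.card X = Nat.card N * (t * ∑ ψ ∈ ov N (orb (cjN N) θ), k ψ ^ 2) := by
    exact_mod_cast h4
  have h6 : (ov N (orb (cjN N) θ)).card = ∑ ψ ∈ ov N (orb (cjN N) θ), k ψ ^ 2 := by
    have h7 : (t * Nat.card N) * (ov N (orb (cjN N) θ)).card =
        (t * Nat.card N) * ∑ ψ ∈ ov N (orb (cjN N) θ), k ψ ^ 2 := by
      calc _ = t * (Nat.card N * (ov N (orb (cjN N) θ)).card) := by ring
        _ = Nat.card X := by rw [hnum, ht]
        _ = _ := by rw [h5]; ring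
    exact Nat.eq_of_mul_eq_mul_left (Nat.mul_pos htpos Nat.card_pos) h7
  have hχ' : χ ∈ ov N (orb (cjN N) θ) := by
    unfold ov
    exact Finset.mem_filter.mpr ⟨mem_Irr.mpr hχ, θ, self_mem_orb hcj θ, hm⟩
  have h7 : k χ = 1 := by
    by_contra h8
    have h9 : ∑ ψ ∈ ov N (orb (cjN N) θ), 1 < ∑ ψ ∈ ov N (orb (cjN N) θ), k ψ ^ 2 := by
      refine Finset.sum_lt_sum (fun ψ hψ => Nat.one_le_pow _ _ (hkpos ψ hψ)) ⟨χ, hχ', ?_⟩
      have := hkpos χ hχ'
      have h10 : 2 ≤ k χ := by omega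
      nlinarith
    rw [← h6, Finset.sum_const, smul_eq_mul, mul_one] at h9
    exact lt_irrefl _ h9
  rw [hk1 χ hχ', h7]
  push_cast
  ring

/-- the number of the irreducible characters whose degree has the property `R` -/
def cnt (R : ℕ → Prop) (X : Type) [Group X] [Fintype X] : ℕ :=
  ((Irr X).filter (fun χ => ∃ n : ℕ, χ 1 = (n : ℂ) ∧ R n)).card

/-- **The degrees.** -/
theorem count_deg (hcyc : IsCyclic (X ⧸ N)) (R : ℕ → Prop) :
    Nat.card N * Nat.card X * cnt R X =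
      ∑ θ ∈ (Irr N).filter (fun θ => ∃ n : ℕ, θ 1 = (n : ℂ) ∧ R ((orb (cjN N) θ).card * n)),
        Nat.card (st N θ) ^ 2 := by
  have hcj := cj_sub N
  rw [← count_ov hcyc (Finset.filter_subset _ _)]
  · congr 1
    unfold cnt
    congr 1
    ext χ
    unfold ov
    rw [Finset.mem_filter, Finset.mem_filter]
    refine and_congr_right fun hχ => ?_
    have hχ' := mem_Irr.mp hχ
    constructor
    · rintro ⟨n, hn, hR⟩
      have h1 := SS_all χ (CQ.res_class hcj hχ'.isClass)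
      obtain ⟨θ, hθ, h2⟩ : ∃ θ ∈ Irr N, mlt N.subtype θ χ ≠ 0 := by
        by_contra h2
        push Not at h2
        have h3 : SS' N.subtype (Irr N) χ = 0 := by
          unfold SS'
          exact Finset.sum_eq_zero fun θ hθ => by rw [h2 θ hθ, mul_zero]
        rw [h3] at h1
        exact one_ne hχ' h1.symm
      obtain ⟨m, -, hm⟩ := deg_nat (mem_Irr.mp hθ)
      refine ⟨θ, Finset.mem_filter.mpr ⟨hθ, m, hm, ?_⟩, h2⟩
      have h3 := deg_ov hcyc (mem_Irr.mp hθ) hχ' h2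
      rw [hn, hm] at h3
      have h4 : n = (orb (cjN N) θ).card * m := by exact_mod_cast h3
      rw [← h4]
      exact hR
    · rintro ⟨θ, hθ, h2⟩
      rw [Finset.mem_filter] at hθ
      obtain ⟨hθ1, m, hm, hR⟩ := hθ
      have h3 := deg_ov hcyc (mem_Irr.mp hθ1) hχ' h2
      exact ⟨(orb (cjN N) θ).card * m, by rw [h3, hm]; push_cast; ring, hR⟩
  · intro y θ hθ
    rw [Finset.mem_filter] at hθ ⊢
    obtain ⟨h1, n, h2, h3⟩ := hθ
    refine ⟨mem_Irr.mpr (irr_comp (cjN N y) (mem_Irr.mp h1)), n, ?_, ?_⟩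
    · change θ (cjN N y 1) = _
      rw [map_one, h2]
    · rw [orb_eq (mem_orb.mpr ⟨y, rfl⟩)]
      exact h3

end Pool.Agent.Q100.EQ
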