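import Pool.Agent.Q100.EQ.Ind
import Pool.Agent.Q100.EQ.Core

set_option autoImplicit false
set_option linter.unusedSectionVars false

/-!
# The numbers of characters of the groups between `G` and `E`
-/

open scoped Classical BigOperators
open Pool.Agent.Helper884.IC
open Pool.Agent.Y63.AWC (irr_comp one_ne deg_nat)
open Pool.Agent.Q100.IV (coset_iff)
open Pool.Agent.Q100.CQ Pool.Agent.Q100.PX

noncomputable section

namespace Pool.Agent.Q100.EQ

/-- intersections in a cyclic group -/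
lemma card_inf_cyclic {C : Type} [Group C] [Finite C] (hc : IsCyclic C) (D U : Subgroup C) :
    Nat.card (D ⊓ U : Subgroup C) = Nat.gcd (Nat.card D) (Nat.card U) := by
  have : Fintype C := Fintype.ofFinite C
  set g := Nat.gcd (Nat.card D) (Nat.card U) with hg
  have hg0 : 0 < g := Nat.gcd_pos_of_pos_left _ Nat.card_pos
  have key : ∀ D : Subgroup C, g ∣ Nat.card D → ∃ w ∈ D, orderOf w = g ∧
      ∀ x : C, x ^ g = 1 → x ∈ D := by
    intro D hgD
    have h1 : IsCyclic D := inferInstance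
    obtain ⟨v, hv⟩ := h1.exists_ofOrder_eq_natCard
    obtain ⟨k, hk⟩ := hgD
    have hk0 : k ≠ 0 := by
      rintro rfl
      rw [mul_zero] at hk
      exact Nat.card_pos.ne' hk
    have hw : orderOf ((v : C) ^ k) = g := by
      rw [orderOf_pow' _ hk0, Subgroup.orderOf_coe, hv, hk, Nat.gcd_mul_left_left,
        Nat.mul_div_cancel _ (Nat.pos_of_ne_zero hk0)]
    refine ⟨(v : C) ^ k, D.pow_mem v.2 k, hw, ?_⟩
    intro x hx
    have h2 : (Finset.univ.filter (fun y : C => y ∈ Subgroup.zpowers ((v : C) ^ k))) ⊆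
        Finset.univ.filter (fun y : C => y ^ g = 1) := by
      intro y hy
      rw [Finset.mem_filter] at hy ⊢
      refine ⟨Finset.mem_univ _, ?_⟩
      obtain ⟨j, rfl⟩ := Subgroup.mem_zpowers_iff.mp hy.2
      have h5 : ((v : C) ^ k) ^ g = 1 := by rw [← hw]; exact pow_orderOf_eq_one _
      rw [← zpow_natCast, ← zpow_mul, mul_comm, zpow_mul, zpow_natCast, h5, one_zpow]
    have h3 : (Finset.univ.filter (fun y : C => y ^ g = 1)).card ≤
        (Finset.univ.filter (fun y : C => y ∈ Subgroup.zpowers ((v : C) ^ k))).card := by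
      refine (IsCyclic.card_pow_eq_one_le hg0).trans (le_of_eq ?_)
      rw [← hw, ← Nat.card_zpowers, Nat.card_eq_fintype_card, Fintype.card_subtype]
    have h4 := Finset.eq_of_subset_of_card_le h2 h3
    have h5 : x ∈ Finset.univ.filter (fun y : C => y ^ g = 1) :=
      Finset.mem_filter.mpr ⟨Finset.mem_univ _, hx⟩
    rw [← h4, Finset.mem_filter] at h5
    have h6 : Subgroup.zpowers ((v : C) ^ k) ≤ D := by
      rw [Subgroup.zpowers_le]
      exact D.pow_mem v.2 k
    exact h6 h5.2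
  obtain ⟨w, hwD, hw, -⟩ := key D (Nat.gcd_dvd_left _ _)
  obtain ⟨-, -, -, hU⟩ := key U (Nat.gcd_dvd_right _ _)
  have hwU : w ∈ U := hU w (by rw [← hw]; exact pow_orderOf_eq_one w)
  apply Nat.dvd_antisymm
  · exact Nat.dvd_gcd (Subgroup.card_dvd_of_le inf_le_left) (Subgroup.card_dvd_of_le inf_le_right)
  · have h1 : Subgroup.zpowers w ≤ D ⊓ U := by
      rw [Subgroup.zpowers_le]
      exact ⟨hwD, hwU⟩
    have h2 := Subgroup.card_dvd_of_le h1
    rwa [Nat.card_zpowers, hw] at h2

variable {E : Type} [Group E] [Finite E] (G : Subgroup E) [hG : G.Normal]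

/-- the order of the stabiliser in `E / G` -/
def sg (θ : G → ℂ) : ℕ := G.relIndex (st G θ)

variable {G}

lemma card_map {H : Subgroup E} (hGH : G ≤ H) :
    Nat.card H = Nat.card G * Nat.card (H.map (QuotientGroup.mk' G)) := by
  have h1 : (H.map (QuotientGroup.mk' G)).index = H.index :=
    Subgroup.index_map_eq _ (QuotientGroup.mk'_surjective G) (by
      rw [QuotientGroup.ker_mk']; exact hGH)
  have h2 := Subgroup.card_mul_index (H.map (QuotientGroup.mk' G))
  have h3 := Subgroup.card_mul_index H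
  have h4 := Subgroup.card_eq_card_quotient_mul_card_subgroup G
  rw [h1] at h2
  have h5 : 0 < H.index := Nat.pos_of_ne_zero (Subgroup.index_ne_zero_of_finite)
  refine Nat.eq_of_mul_eq_mul_right h5 ?_
  rw [h3, h4, ← h2]
  ring

lemma card_rel {H : Subgroup E} (hGH : G ≤ H) : Nat.card H = Nat.card G * G.relIndex H := by
  have h1 := Subgroup.card_mul_index (G.subgroupOf H)
  rw [Nat.card_congr (Subgroup.subgroupOfEquivOfLe hGH).toEquiv] at h1
  exact h1.symm

lemma rel_eq {H : Subgroup E} (hGH : G ≤ H) : G.relIndex H = Nat.card (H.map (QuotientGroup.mk' G)) := by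
  have h1 := card_rel hGH
  rw [card_map hGH] at h1
  exact (Nat.eq_of_mul_eq_mul_left Nat.card_pos h1).symm

lemma card_inf_rel (hc : IsCyclic (E ⧸ G)) {H M : Subgroup E} (hGH : G ≤ H) (hGM : G ≤ M) :
    Nat.card (H ⊓ M : Subgroup E) = Nat.card G * Nat.gcd (G.relIndex M) (G.relIndex H) := by
  rw [card_map (le_inf hGH hGM), rel_eq hGM, rel_eq hGH, Nat.gcd_comm]
  congr 1
  rw [← card_inf_cyclic hc]
  have hk : ∀ K : Subgroup E, G ≤ K → (K.map (QuotientGroup.mk' G)).comap (QuotientGroup.mk' G) = K := by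
    intro K hK
    rw [Subgroup.comap_map_eq_self]
    rw [QuotientGroup.ker_mk']
    exact hK
  have h1 : (H.map (QuotientGroup.mk' G) ⊓ M.map (QuotientGroup.mk' G)).comap (QuotientGroup.mk' G) =
      H ⊓ M := by
    rw [Subgroup.comap_inf, hk H hGH, hk M hGM]
  rw [← h1, Subgroup.map_comap_eq_self_of_surjective (QuotientGroup.mk'_surjective G)]

lemma cyc_sub (hc : IsCyclic (E ⧸ G)) (M : Subgroup E) : IsCyclic (M ⧸ G.subgroupOf M) := by
  let φ : M ⧸ G.subgroupOf M →* E ⧸ G :=
    QuotientGroup.map (G.subgroupOf M) G M.subtype (fun x hx => hx)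
  refine isCyclic_of_injective φ ?_
  rw [injective_iff_map_eq_one]
  intro q hq
  obtain ⟨x, rfl⟩ := QuotientGroup.mk_surjective q
  have h1 : ((x : E) : E ⧸ G) = 1 := hq
  rw [QuotientGroup.eq_one_iff] at h1 ⊢
  exact h1

lemma st_sub {M : Subgroup E} (hGM : G ≤ M) (θ : G → ℂ) :
    st (G.subgroupOf M) (fun x => θ (Subgroup.subgroupOfEquivOfLe hGM x)) = (st G θ).subgroupOf M := by
  ext y
  rw [mem_st, Subgroup.mem_subgroupOf, mem_st]
  constructor
  · intro h x
    exact h ((Subgroup.subgroupOfEquivOfLe hGM).symm x)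
  · intro h x
    exact h (Subgroup.subgroupOfEquivOfLe hGM x)

/-- **The number of the characters of `M`.** -/
theorem count_amb (hc : IsCyclic (E ⧸ G)) [Fintype G] {M : Subgroup E} [Fintype M] (hGM : G ≤ M)
    (R : ℕ → Prop) :
    G.relIndex M * cnt R M =
      ∑ θ ∈ (Irr G).filter (fun θ => ∃ n : ℕ, θ 1 = (n : ℂ) ∧
        R (G.relIndex M / Nat.gcd (G.relIndex M) (sg G θ) * n)),
        (Nat.gcd (G.relIndex M) (sg G θ)) ^ 2 := by
  let _ : Fintype (G.subgroupOf M) := Fintype.ofFinite _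
  have h := count_deg (N := G.subgroupOf M) (cyc_sub hc M) R
  set e := Subgroup.subgroupOfEquivOfLe hGM with he
  have hN : Nat.card (G.subgroupOf M) = Nat.card G := Nat.card_congr e.toEquiv
  have hM : Nat.card M = Nat.card G * G.relIndex M := card_rel hGM
  have hst : ∀ θ ∈ Irr G, Nat.card (st (G.subgroupOf M) (fun x => θ (e x))) =
      Nat.card G * Nat.gcd (G.relIndex M) (sg G θ) := by
    intro θ hθ
    unfold sg
    rw [he, st_sub hGM, ← card_inf_rel hc (le_st (mem_Irr.mp hθ).isClass) hGM,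
      ← Subgroup.inf_subgroupOf_right]
    exact Nat.card_congr (Subgroup.subgroupOfEquivOfLe inf_le_right).toEquiv
  have horb : ∀ θ ∈ Irr G, (orb (cjN (G.subgroupOf M)) (fun x => θ (e x))).card =
      G.relIndex M / Nat.gcd (G.relIndex M) (sg G θ) := by
    intro θ hθ
    have h1 := orb_mul_st (N := G.subgroupOf M) (fun x => θ (e x))
    rw [hst θ hθ, hM] at h1
    have h2 : 0 < Nat.gcd (G.relIndex M) (sg G θ) := by
      apply Nat.gcd_pos_of_pos_left
      rw [rel_eq hGM]
      exact Nat.card_pos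
    refine (Nat.div_eq_of_eq_mul_left h2 ?_).symm
    refine Nat.eq_of_mul_eq_mul_left (Nat.card_pos (α := G)) ?_
    rw [← h1]
    ring
  have h3 : ∑ θ ∈ (Irr (G.subgroupOf M)).filter (fun θ => ∃ n : ℕ, θ 1 = (n : ℂ) ∧
      R ((orb (cjN (G.subgroupOf M)) θ).card * n)), Nat.card (st (G.subgroupOf M) θ) ^ 2 =
      ∑ θ ∈ (Irr G).filter (fun θ => ∃ n : ℕ, θ 1 = (n : ℂ) ∧
        R (G.relIndex M / Nat.gcd (G.relIndex M) (sg G θ) * n)),
        (Nat.card G * Nat.gcd (G.relIndex M) (sg G θ)) ^ 2 := by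
    symm
    refine Finset.sum_bij' (fun θ _ => fun x => θ (e x)) (fun θ _ => fun x => θ (e.symm x)) ?_ ?_ ?_ ?_ ?_
    · intro θ hθ
      rw [Finset.mem_filter] at hθ ⊢
      obtain ⟨h1, n, h2, h3⟩ := hθ
      refine ⟨mem_Irr.mpr (irr_comp e (mem_Irr.mp h1)), n, ?_, ?_⟩
      · change θ (e 1) = _
        rw [map_one, h2]
      · rw [horb θ h1]
        exact h3
    · intro θ hθ
      rw [Finset.mem_filter] at hθ ⊢
      obtain ⟨h1, n, h2, h3⟩ := hθ
      have h4 : (fun x => θ (e.symm x)) ∈ Irr G := mem_Irr.mpr (irr_comp e.symm (mem_Irr.mp h1))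
      refine ⟨h4, n, ?_, ?_⟩
      · change θ (e.symm 1) = _
        rw [map_one, h2]
      · rw [← horb _ h4]
        have h5 : (fun x => θ (e.symm (e x))) = θ := by
          funext x
          rw [e.symm_apply_apply]
        rw [h5]
        exact h3
    · intro θ _
      funext x
      change θ (e (e.symm x)) = θ x
      rw [e.apply_symm_apply]
    · intro θ _
      funext x
      change θ (e.symm (e x)) = θ x
      rw [e.symm_apply_apply]
    · intro θ hθ
      rw [Finset.mem_filter] at hθ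
      rw [hst θ hθ.1]
  rw [h3, hN, hM] at h
  have h4 : ∑ θ ∈ (Irr G).filter (fun θ => ∃ n : ℕ, θ 1 = (n : ℂ) ∧
        R (G.relIndex M / Nat.gcd (G.relIndex M) (sg G θ) * n)),
        (Nat.card G * Nat.gcd (G.relIndex M) (sg G θ)) ^ 2 =
      Nat.card G ^ 2 * ∑ θ ∈ (Irr G).filter (fun θ => ∃ n : ℕ, θ 1 = (n : ℂ) ∧
        R (G.relIndex M / Nat.gcd (G.relIndex M) (sg G θ) * n)),
        (Nat.gcd (G.relIndex M) (sg G θ)) ^ 2 := by
    rw [Finset.mul_sum]
    exact Finset.sum_congr rfl fun θ _ => by ring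
  rw [h4] at h
  refine Nat.eq_of_mul_eq_mul_left (pow_pos (Nat.card_pos (α := G)) 2) ?_
  rw [← h]
  ring

end Pool.Agent.Q100.EQ
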